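import Pool.Agent.Helper75.Ent.Main

/-!
# Brown–Voiculescu entropy can be smaller than the coloured entropies

The algebra is the unitization of the compact operators on `ℓ²(ℕ)` and the endomorphism is
`T + λ ↦ ∑ s_i T s_i^* + λ` (`T` compact), where `s_i e_x = e_{m x + i + 1}` for `i < m`.
-/

open Ent75

theorem Pool.Agent.Results.MP_ec8bff_an.EntropyGap.result (m : ℕ) (hm : 2 ≤ m) :
    ∃ (A : Type) (_ : CStarAlgebra A) (α : A →⋆ₐ[ℂ] A),
      decRank A = 0 ∧ dimNuc A = 0 ∧
      ht α = 0 ∧ htNuc α = (Real.log m : EReal) ∧ htDr α = (Real.log m : EReal) :=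
  ⟨AAlg, inferInstance, al m, decRank_eq, dimNuc_eq, ht_eq (by omega), htNuc_eq hm, htDr_eq hm⟩
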